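import Mathlib
import Pool.Agent.Y467.TF.MM
import Pool.Agent.Y467.TF.Avoid

set_option autoImplicit false

/-!
# Full block filters are not images of stable ordered-union ultrafilters

`E = ℕ →₀ F` is the vector space over the field `F` with its standard basis; `FIN` is the set of
nonempty finite sets of natural numbers, as a subset of `Finset ℕ`. For `|F| = 2` the
`(p⁺)`-filters are, via supports, the stable ordered-union ultrafilters. If `|F| > 2`, no full block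
filter is contained in any image of any stable ordered-union ultrafilter.
-/

namespace Pool.Agent.Results.MP_a0d45a_lc.NotAnImage

open Pool.Agent.Y467 Filter

section

variable {F : Type*} [Field F]

/-- `X` is an infinite block sequence: nonzero vectors with
`max supp (X n) < min supp (X (n+1))`. -/
def IsBlockSeq (X : ℕ → (ℕ →₀ F)) : Prop :=
  ∀ n, X n ≠ 0 ∧ ∀ i ∈ (X n).support, ∀ j ∈ (X (n + 1)).support, i < j

/-- `⟨X⟩`: the linear span of the terms of `X`, with `0` removed. -/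
def spanOf (X : ℕ → (ℕ →₀ F)) : Set (ℕ →₀ F) :=
  (Submodule.span F (Set.range X) : Set (ℕ →₀ F)) \ {0}

/-- A filter on `E`: a proper filter of subsets of `E \ {0}` (encoded as a filter on `E` which
contains `E \ {0}`) containing all finite-codimensional subspaces with `0` removed. -/
def IsFilterOnE (𝓕 : Filter (ℕ →₀ F)) : Prop :=
  𝓕.NeBot ∧ ({0}ᶜ : Set (ℕ →₀ F)) ∈ 𝓕 ∧
    ∀ V : Submodule F (ℕ →₀ F), FiniteDimensional F ((ℕ →₀ F) ⧸ V) →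
      ((V : Set (ℕ →₀ F)) \ {0}) ∈ 𝓕

/-- A block filter: a filter on `E` with a base of sets `⟨X⟩`, `X` a block sequence. -/
def IsBlockFilter (𝓕 : Filter (ℕ →₀ F)) : Prop :=
  IsFilterOnE 𝓕 ∧ ∀ A ∈ 𝓕, ∃ X, IsBlockSeq X ∧ spanOf X ∈ 𝓕 ∧ spanOf X ⊆ A

/-- `D` is `𝓕`-dense: every `⟨X⟩ ∈ 𝓕` contains `V \ {0} ⊆ D` for some infinite-dimensional
subspace `V`. -/
def IsDenseFor (𝓕 : Filter (ℕ →₀ F)) (D : Set (ℕ →₀ F)) : Prop :=
  ∀ X, IsBlockSeq X → spanOf X ∈ 𝓕 →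
    ∃ V : Submodule F (ℕ →₀ F), ¬ FiniteDimensional F V ∧
      ((V : Set (ℕ →₀ F)) \ {0}) ⊆ spanOf X ∧ ((V : Set (ℕ →₀ F)) \ {0}) ⊆ D

/-- `𝓕` is full: every `𝓕`-dense set belongs to `𝓕`. -/
def IsFull (𝓕 : Filter (ℕ →₀ F)) : Prop := ∀ D, IsDenseFor 𝓕 D → D ∈ 𝓕

end

/-- Block sequences in `FIN`. -/
def IsFinBlock (A : ℕ → Finset ℕ) : Prop :=
  ∀ n, (A n).Nonempty ∧ ∀ i ∈ A n, ∀ j ∈ A (n + 1), i < j

/-- `⟨A⟩`: the finite nonempty unions of entries of `A`. -/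
def unions (A : ℕ → Finset ℕ) : Set (Finset ℕ) :=
  {s | ∃ I : Finset ℕ, I.Nonempty ∧ s = I.biUnion A}

/-- Stable ordered-union ultrafilters on `FIN`: there is a base of sets `⟨A⟩`, and countably many
`⟨A_m⟩ ∈ 𝒰` have a common lower bound `⟨B⟩ ∈ 𝒰`: all but finitely many entries of `B` are in
`⟨A_m⟩`, for each `m`. -/
def IsStableOrderedUnion (𝒰 : Ultrafilter (Finset ℕ)) : Prop :=
  (∀ S ∈ 𝒰, ∃ A, IsFinBlock A ∧ unions A ∈ 𝒰 ∧ unions A ⊆ S) ∧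
  ∀ As : ℕ → ℕ → Finset ℕ, (∀ m, IsFinBlock (As m) ∧ unions (As m) ∈ 𝒰) →
    ∃ B, IsFinBlock B ∧ unions B ∈ 𝒰 ∧ ∀ m, ∃ k, ∀ n, k ≤ n → B n ∈ unions (As m)

/-- **Theorem.** Let `F` be a field with more than two elements, `𝓕` a full block filter over `F`
(for instance a `(p⁺)`-filter) and `𝒰` a stable ordered-union ultrafilter. Then there is no map
`w : FIN → E` such that `w⁻¹(D) ∈ 𝒰` for all `D ∈ 𝓕`: no ultrafilter containing `𝓕` is an image of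
`𝒰`. -/
theorem result (F : Type*) [Field F] (hF : ∃ α : F, α ≠ 0 ∧ α ≠ 1) (𝓕 : Filter (ℕ →₀ F))
    (h𝓕 : IsBlockFilter 𝓕) (hfull : IsFull 𝓕) (𝒰 : Ultrafilter (Finset ℕ))
    (h𝒰 : IsStableOrderedUnion 𝒰) (w : Finset ℕ → (ℕ →₀ F)) :
    ¬ (∀ D ∈ 𝓕, w ⁻¹' D ∈ 𝒰) := by
  classical
  intro hw
  obtain ⟨α, hα0, hα1⟩ := hF
  have hU : TF.SOU 𝒰 := ⟨h𝒰.1, h𝒰.2⟩
  obtain ⟨⟨_, hz, hcof⟩, hbase⟩ := h𝓕
  let h : Finset ℕ → Finset ℕ := fun s => (w s).support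
  have hfar : ∀ N, ∀ᶠ b in (𝒰 : Filter (Finset ℕ)), (h b).Nonempty ∧ ∀ t ∈ h b, N ≤ t := by
    intro N
    have h1 := hcof (Pool.Agent.H829R3.tailSub F N) (Pool.Agent.H829R3.tailSub_cofin N)
    filter_upwards [hw _ h1] with b hb
    refine ⟨Finsupp.support_nonempty_iff.2 hb.2, ?_⟩
    exact Pool.Agent.H829R3.mem_tailSub.1 hb.1
  have hou : ∀ S ∈ 𝒰, ∃ B, TF.FinBlock B ∧ TF.FU B ⊆ h '' S := by
    intro S hS
    rcases TF.supp_ultra (F := F) hbase hfull (h '' S) with h1 | h1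
    · obtain ⟨B, hB, _, hBs⟩ := TF.supp_base (F := F) hbase h1
      exact ⟨B, hB, hBs⟩
    · exfalso
      have h2 : w ⁻¹' ((fun v : ℕ →₀ F => v.support) ⁻¹' (h '' S)ᶜ) ∈ 𝒰 := hw _ h1
      obtain ⟨b, hb1, hb2⟩ := 𝒰.nonempty_of_mem (Filter.inter_mem h2 hS)
      exact hb1 ⟨b, hb2, rfl⟩
  rcases TF.ev_or (𝒰 := 𝒰)
    (fun a => ∀ᶠ b in (𝒰 : Filter (Finset ℕ)), TF.Ev 𝒰 h a (a ∪ b)) with H | H
  · exact TF.not_minmax hU h hfar hou H
  · have H' : ∀ᶠ a in (𝒰 : Filter (Finset ℕ)), ∀ᶠ b in (𝒰 : Filter (Finset ℕ)),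
        ¬ TF.Ev 𝒰 h a (a ∪ b) := by
      filter_upwards [H] with a ha
      exact Ultrafilter.eventually_not.2 ha
    have hnc : ∀ r, ¬ ∀ᶠ b in (𝒰 : Filter (Finset ℕ)), h b = r := by
      intro r hr
      obtain ⟨b, hb1, hb2, hb3⟩ := (hr.and (hfar (TF.mx r + 1))).exists
      obtain ⟨t, ht⟩ := hb2
      have h1 := hb3 t ht
      rw [hb1] at ht
      have h2 := TF.le_mx ht
      omega
    obtain ⟨A, hA, hA𝒰, hinj⟩ := TF.inj_case hU h hnc H'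
    have hC : ∀ c ∈ w '' TF.FU A, ∀ c' ∈ w '' TF.FU A, c.support = c'.support → c = c' := by
      rintro _ ⟨_, ⟨I, hI, rfl⟩, rfl⟩ _ ⟨_, ⟨J, hJ, rfl⟩, rfl⟩ he
      rw [hinj I J hI hJ he]
    have hD : (w '' TF.FU A)ᶜ ∈ 𝓕 := by
      apply hfull
      intro X hX _
      have hXb : Pool.Agent.H829R3.IsBlock X := hX
      obtain ⟨v, hv, hvX, hvC⟩ := TF.avoid_block hα0 hα1 hC hXb
      exact ⟨Submodule.span F (Set.range v), hv.not_finiteDimensional, hvX, hvC⟩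
    obtain ⟨b, hb1, hb2⟩ := 𝒰.nonempty_of_mem (Filter.inter_mem (hw _ hD) hA𝒰)
    exact hb1 ⟨b, hb2, rfl⟩

end Pool.Agent.Results.MP_a0d45a_lc.NotAnImage
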