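import Mathlib
import Pool.Agent.Y467.TF.Supp
import Pool.Agent.Y467.TF.Rat

set_option autoImplicit false

/-!
# Full block filters over infinite fields, and transfer between fields

`E = ℕ →₀ F` is the vector space over the field `F` with its standard basis; `FIN` is the set of
nonempty finite sets of natural numbers, as a subset of `Finset ℕ`.
-/

namespace Pool.Agent.Results.MP_a0d45a_lc.TransferAndStability

open Pool.Agent.Y467

section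

variable {F : Type*} [Field F]

/-- `X` is an infinite block sequence: nonzero vectors with
`max supp (X n) < min supp (X (n+1))`. -/
def IsBlockSeq (X : ℕ → (ℕ →₀ F)) : Prop :=
  ∀ n, X n ≠ 0 ∧ ∀ i ∈ (X n).support, ∀ j ∈ (X (n + 1)).support, i < j

/-- `⟨X⟩`: the linear span of the terms of `X`, with `0` removed. -/
def spanOf (X : ℕ → (ℕ →₀ F)) : Set (ℕ →₀ F) :=
  (Submodule.span F (Set.range X) : Set (ℕ →₀ F)) \ {0}

/-- `X ⪯* Y`: all but finitely many terms of `X` lie in `⟨Y⟩`. -/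
def AlmostBelow (X Y : ℕ → (ℕ →₀ F)) : Prop := ∃ k, ∀ n, k ≤ n → X n ∈ spanOf Y

/-- A filter on `E`: a proper filter of subsets of `E \ {0}` (encoded as a filter on `E` which
contains `E \ {0}`) containing all finite-codimensional subspaces with `0` removed. -/
def IsFilterOnE (𝓕 : Filter (ℕ →₀ F)) : Prop :=
  𝓕.NeBot ∧ ({0}ᶜ : Set (ℕ →₀ F)) ∈ 𝓕 ∧
    ∀ V : Submodule F (ℕ →₀ F), FiniteDimensional F ((ℕ →₀ F) ⧸ V) →
      ((V : Set (ℕ →₀ F)) \ {0}) ∈ 𝓕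

/-- A block filter: a filter on `E` with a base of sets `⟨X⟩`, `X` a block sequence. -/
def IsBlockFilter (𝓕 : Filter (ℕ →₀ F)) : Prop :=
  IsFilterOnE 𝓕 ∧ ∀ A ∈ 𝓕, ∃ X, IsBlockSeq X ∧ spanOf X ∈ 𝓕 ∧ spanOf X ⊆ A

/-- `D` is `𝓕`-dense: every `⟨X⟩ ∈ 𝓕` contains `V \ {0} ⊆ D` for some infinite-dimensional
subspace `V`. -/
def IsDenseFor (𝓕 : Filter (ℕ →₀ F)) (D : Set (ℕ →₀ F)) : Prop :=
  ∀ X, IsBlockSeq X → spanOf X ∈ 𝓕 →
    ∃ V : Submodule F (ℕ →₀ F), ¬ FiniteDimensional F V ∧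
      ((V : Set (ℕ →₀ F)) \ {0}) ⊆ spanOf X ∧ ((V : Set (ℕ →₀ F)) \ {0}) ⊆ D

/-- `𝓕` is full: every `𝓕`-dense set belongs to `𝓕`. -/
def IsFull (𝓕 : Filter (ℕ →₀ F)) : Prop := ∀ D, IsDenseFor 𝓕 D → D ∈ 𝓕

/-- The `(p)` condition: countably many `⟨X_m⟩ ∈ 𝓕` have a common `⪯*`-lower bound in `𝓕`. -/
def IsPointLike (𝓕 : Filter (ℕ →₀ F)) : Prop :=
  ∀ Xs : ℕ → ℕ → (ℕ →₀ F), (∀ m, IsBlockSeq (Xs m) ∧ spanOf (Xs m) ∈ 𝓕) →
    ∃ X, IsBlockSeq X ∧ spanOf X ∈ 𝓕 ∧ ∀ m, AlmostBelow X (Xs m)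

/-- A `(p⁺)`-filter: a full block filter with the `(p)` condition. -/
def IsPPlusFilter (𝓕 : Filter (ℕ →₀ F)) : Prop :=
  IsBlockFilter 𝓕 ∧ IsFull 𝓕 ∧ IsPointLike 𝓕

end

/-- Block sequences in `FIN`. -/
def IsFinBlock (A : ℕ → Finset ℕ) : Prop :=
  ∀ n, (A n).Nonempty ∧ ∀ i ∈ A n, ∀ j ∈ A (n + 1), i < j

/-- `⟨A⟩`: the finite nonempty unions of entries of `A`. -/
def unions (A : ℕ → Finset ℕ) : Set (Finset ℕ) :=
  {s | ∃ I : Finset ℕ, I.Nonempty ∧ s = I.biUnion A}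

/-- Stable ordered-union ultrafilters on `FIN`: there is a base of sets `⟨A⟩`, and countably many
`⟨A_m⟩ ∈ 𝒰` have a common lower bound `⟨B⟩ ∈ 𝒰`: all but finitely many entries of `B` are in
`⟨A_m⟩`, for each `m`. -/
def IsStableOrderedUnion (𝒰 : Ultrafilter (Finset ℕ)) : Prop :=
  (∀ S ∈ 𝒰, ∃ A, IsFinBlock A ∧ unions A ∈ 𝒰 ∧ unions A ⊆ S) ∧
  ∀ As : ℕ → ℕ → Finset ℕ, (∀ m, IsFinBlock (As m) ∧ unions (As m) ∈ 𝒰) →
    ∃ B, IsFinBlock B ∧ unions B ∈ 𝒰 ∧ ∀ m, ∃ k, ∀ n, k ≤ n → B n ∈ unions (As m)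

/-- The image of a filter under the application of `φ` to all coefficients. -/
noncomputable def pushCoeff {F K : Type*} [Field F] [Field K] (φ : F →*₀ K)
    (𝓕 : Filter (ℕ →₀ F)) : Filter (ℕ →₀ K) :=
  𝓕.map (fun v => v.mapRange φ (map_zero φ))

theorem point_of_infinite {F : Type*} [Field F] [Infinite F] {𝓕 : Filter (ℕ →₀ F)}
    (h𝓕 : IsBlockFilter 𝓕) (hfull : IsFull 𝓕) (As : ℕ → Set (ℕ →₀ F)) (hAs : ∀ m, As m ∈ 𝓕) :
    ∃ U, IsBlockSeq U ∧ spanOf U ∈ 𝓕 ∧ ∀ m n, m ≤ n → U n ∈ As m := by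
  obtain ⟨U, hU, hU𝓕, hUs⟩ := SF.strong_of_full (F := F) h𝓕.2 hfull
      (fun l => {v | ∀ s ∈ l.inits, v ∈ As s.length})
      (fun l => SF.mem_of_list (R := fun s => As s.length) (fun s => hAs s.length) l.inits)
  refine ⟨U, hU, hU𝓕, ?_⟩
  intro m n hmn
  have h1 := hUs n (List.ofFn (fun i : Fin m => U i.val)) (by
    rw [List.mem_inits]
    refine ⟨List.ofFn (fun i : Fin (n - m) => U (m + i.val)), ?_⟩
    apply List.ext_getElem
    · simp; omega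
    · intro i h3 h4
      rw [List.getElem_ofFn, List.getElem_append]
      split
      · rw [List.getElem_ofFn]
      · rename_i h5
        rw [List.getElem_ofFn]
        congr 1
        simp at h5 ⊢
        omega)
  simpa using h1

theorem stable_of_infinite {F : Type*} [Field F] [Infinite F] {𝓕 : Filter (ℕ →₀ F)}
    (h𝓕 : IsBlockFilter 𝓕) (hfull : IsFull 𝓕) :
    ∃ 𝒰 : Ultrafilter (Finset ℕ), IsStableOrderedUnion 𝒰 ∧
      (𝒰 : Filter (Finset ℕ)) = 𝓕.map (fun v => v.support) := by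
  have hne : 𝓕.NeBot := h𝓕.1.1
  let 𝒰 : Ultrafilter (Finset ℕ) := Ultrafilter.ofComplNotMemIff
    (𝓕.map (fun v : ℕ →₀ F => v.support)) (by
      intro S
      constructor
      · intro h
        rcases TF.supp_ultra (F := F) h𝓕.2 hfull S with h1 | h1
        · exact h1
        · exact absurd h1 h
      · intro h h1
        have h2 := Filter.inter_mem h h1
        rw [Set.inter_compl_self] at h2
        exact (Filter.empty_notMem _) h2)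
  have hmem : ∀ S : Set (Finset ℕ), S ∈ 𝒰 ↔ (fun v : ℕ →₀ F => v.support) ⁻¹' S ∈ 𝓕 :=
    fun S => Iff.rfl
  refine ⟨𝒰, ⟨?_, ?_⟩, rfl⟩
  · intro S hS
    obtain ⟨A, h1, h2, h3⟩ := TF.supp_base (F := F) h𝓕.2 ((hmem S).1 hS)
    exact ⟨A, h1, h2, h3⟩
  · intro As hAs
    obtain ⟨U, hU, hU𝓕, hUs⟩ := point_of_infinite h𝓕 hfull
      (fun m => (fun v : ℕ →₀ F => v.support) ⁻¹' (unions (As m)))
      (fun m => (hmem _).1 (hAs m).2)
    have hUb : Pool.Agent.H829R3.IsBlock U := hU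
    refine ⟨fun n => (U n).support, ?_, ?_, ?_⟩
    · intro n
      exact ⟨hUb.supp_nonempty n, (hU n).2⟩
    · rw [hmem]
      exact Filter.mem_of_superset hU𝓕 (fun v hv => TF.supp_mem_FU hUb hv)
    · intro m
      exact ⟨m, fun n hn => hUs m n hn⟩

theorem push_block {F K : Type*} [Field F] [Field K] {φ : F →*₀ K} (hφ : Function.Surjective φ)
    {𝓕 : Filter (ℕ →₀ F)} (h𝓕 : IsBlockFilter 𝓕) (hfull : IsFull 𝓕) :
    IsBlockFilter (pushCoeff φ 𝓕) ∧ IsFull (pushCoeff φ 𝓕) := by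
  have hne : 𝓕.NeBot := h𝓕.1.1
  have h1 : IsFull (pushCoeff φ 𝓕) := TF.push_full (F := F) hφ hfull
  refine ⟨⟨⟨?_, ?_, ?_⟩, TF.push_base (F := F) hφ h𝓕.2⟩, h1⟩
  · exact Filter.map_neBot
  · show _ ∈ Filter.map (TF.pf φ) 𝓕
    rw [Filter.mem_map]
    refine Filter.mem_of_superset h𝓕.1.2.1 ?_
    intro v hv
    exact (TF.pf_ne_zero φ).2 hv
  · exact TF.cofin_of_full h1

theorem push_point {F K : Type*} [Field F] [Field K] {φ : F →*₀ K} (hφ : Function.Surjective φ)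
    {𝓕 : Filter (ℕ →₀ F)} (h𝓕 : IsBlockFilter 𝓕) (hp : IsPointLike 𝓕) :
    IsPointLike (pushCoeff φ 𝓕) := by
  intro Xs hXs
  have h1 : ∀ m, (TF.pf φ) ⁻¹' (spanOf (Xs m)) ∈ 𝓕 := fun m => (hXs m).2
  choose Z hZ hZ𝓕 hZs using fun m => h𝓕.2 _ (h1 m)
  obtain ⟨Y, hY, hY𝓕, hYs⟩ := hp Z (fun m => ⟨hZ m, hZ𝓕 m⟩)
  have hYb : Pool.Agent.H829R3.IsBlock Y := hY
  refine ⟨fun n => TF.pf φ (Y n), TF.pf_block φ hYb, ?_, ?_⟩
  · show _ ∈ Filter.map (TF.pf φ) 𝓕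
    rw [Filter.mem_map]
    exact Filter.mem_of_superset hY𝓕 (fun v hv => TF.pf_mem hYb hv)
  · intro m
    obtain ⟨k, hk⟩ := hYs m
    exact ⟨k, fun n hn => hZs m (hk n hn)⟩

theorem pplus_of_infinite {F : Type*} [Field F] [Infinite F] {𝓕 : Filter (ℕ →₀ F)}
    (h𝓕 : IsBlockFilter 𝓕) (hfull : IsFull 𝓕) : IsPPlusFilter 𝓕 := by
  refine ⟨h𝓕, hfull, ?_⟩
  intro Xs hXs
  obtain ⟨U, hU, hU𝓕, hUs⟩ := point_of_infinite h𝓕 hfull (fun m => spanOf (Xs m))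
    (fun m => (hXs m).2)
  exact ⟨U, hU, hU𝓕, fun m => ⟨m, fun n hn => hUs m n hn⟩⟩

/-- **Theorem.** (1) Over an infinite field (of any cardinality) every full block filter is a
`(p⁺)`-filter, and the supports of its members form a stable ordered-union ultrafilter.
(2) Let `φ : F → K` be a surjective multiplicative map of fields with `φ 0 = 0`, i.e. a surjective
homomorphism of the multiplicative groups. Then `φ`, applied to coefficients, maps full block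
filters to full block filters and `(p⁺)`-filters to `(p⁺)`-filters.
(3) A full block filter over `ℚ` exists if and only if `(p⁺)`-filters exist over all countable
fields. -/
theorem result :
    (∀ (F : Type*) [Field F] [Infinite F] (𝓕 : Filter (ℕ →₀ F)), IsBlockFilter 𝓕 → IsFull 𝓕 →
      IsPPlusFilter 𝓕 ∧ ∃ 𝒰 : Ultrafilter (Finset ℕ), IsStableOrderedUnion 𝒰 ∧
        (𝒰 : Filter (Finset ℕ)) = 𝓕.map (fun v => v.support)) ∧
    (∀ (F K : Type*) [Field F] [Field K] (φ : F →*₀ K), Function.Surjective φ →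
      ∀ 𝓕 : Filter (ℕ →₀ F), IsBlockFilter 𝓕 → IsFull 𝓕 →
        IsBlockFilter (pushCoeff φ 𝓕) ∧ IsFull (pushCoeff φ 𝓕) ∧
        (Infinite F ∨ IsPointLike 𝓕 → IsPPlusFilter (pushCoeff φ 𝓕))) ∧
    ((∃ 𝓕 : Filter (ℕ →₀ ℚ), IsBlockFilter 𝓕 ∧ IsFull 𝓕) ↔
      ∀ (K : Type) [Field K] [Countable K], ∃ 𝓖 : Filter (ℕ →₀ K), IsPPlusFilter 𝓖) := by
  refine ⟨?_, ?_, ?_, ?_⟩
  · intro F _ _ 𝓕 h𝓕 hfull
    exact ⟨pplus_of_infinite h𝓕 hfull, stable_of_infinite h𝓕 hfull⟩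
  · intro F K _ _ φ hφ 𝓕 h𝓕 hfull
    obtain ⟨h1, h2⟩ := push_block hφ h𝓕 hfull
    refine ⟨h1, h2, ?_⟩
    rintro (hinf | hp)
    · exact ⟨h1, h2, push_point hφ h𝓕 (pplus_of_infinite h𝓕 hfull).2.2⟩
    · exact ⟨h1, h2, push_point hφ h𝓕 hp⟩
  · rintro ⟨𝓕, h𝓕, hfull⟩ K _ _
    obtain ⟨φ, hφ⟩ := TF.exists_rat_surj K
    obtain ⟨h1, h2⟩ := push_block hφ h𝓕 hfull
    exact ⟨_, h1, h2, push_point hφ h𝓕 (pplus_of_infinite h𝓕 hfull).2.2⟩
  · intro h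
    obtain ⟨𝓕, h1, h2, _⟩ := h ℚ
    exact ⟨𝓕, h1, h2⟩

end Pool.Agent.Results.MP_a0d45a_lc.TransferAndStability
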